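import Pool.Agent.H11.NS.Targets

/-!
Board ns_modules (MP_9b2842_al), modules SWX and SWY.
-/

namespace Pool.Agent.H65.NSSW

open Pool.Agent.H11.NS
open Equiv (Perm swap)

/-- the three points of a three-cycle -/
lemma pts {Ω : Type} [Fintype Ω] [DecidableEq Ω] {c : Perm Ω} (hc : c.IsThreeCycle) :
    ∃ x y z : Ω, x ≠ y ∧ x ≠ z ∧ y ≠ z ∧ c = swap x y * swap y z ∧
      x ∈ c.support ∧ y ∈ c.support ∧ z ∈ c.support := by
  have h0 : c.support.Nonempty := by
    rw [← Finset.card_pos, hc.card_support]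
    norm_num
  obtain ⟨x, hx⟩ := h0
  have h1 := hc.nodup_iff_mem_support.2 hx
  have h2 := hc.eq_swap_mul_swap_iff_mem_support.2 hx
  have hy : c x ∈ c.support := Equiv.Perm.apply_mem_support.2 hx
  have hz : c (c x) ∈ c.support := Equiv.Perm.apply_mem_support.2 hy
  simp only [List.nodup_cons, List.mem_cons, List.not_mem_nil, or_false, not_or, not_false_eq_true,
    List.nodup_nil, and_true] at h1
  exact ⟨x, c x, c (c x), h1.1.1, h1.1.2, h1.2, h2, hx, hy, hz⟩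

lemma fix {Ω : Type} [Fintype Ω] [DecidableEq Ω] {x c : Perm Ω} (h : Equiv.Perm.Disjoint x c)
    {a : Ω} (ha : a ∈ c.support) : x a = a :=
  (h a).resolve_right (Equiv.Perm.mem_support.1 ha)

lemma comm_swap {Ω : Type} [DecidableEq Ω] {x : Perm Ω} {a b : Ω} (ha : x a = a) (hb : x b = b) :
    Commute (swap a b) x := by
  change swap a b * x = x * swap a b
  rw [Equiv.mul_swap_eq_swap_mul, ha, hb]

/-- SWX. -/
theorem pf_swx : T_SWX := by
  intro Ω _ _ c d hc hd hcd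
  obtain ⟨a1, a2, a3, h12, h13, h23, hcs, s1, s2, s3⟩ := pts hc
  obtain ⟨b1, b2, b3, k12, k13, k23, hds, t1, t2, t3⟩ := pts hd
  have hne : ∀ a ∈ c.support, ∀ b ∈ d.support, a ≠ b := fun a ha b hb hab =>
    (Finset.disjoint_left.1 hcd.disjoint_support ha) (hab ▸ hb)
  have e1 : swap a1 b1 a2 = a2 := Equiv.swap_apply_of_ne_of_ne h12.symm (hne _ s2 _ t1)
  have e1' : swap a1 b1 b2 = b2 :=
    Equiv.swap_apply_of_ne_of_ne (hne _ s1 _ t2).symm k12.symm
  have e2 : swap a1 b1 a3 = a3 := Equiv.swap_apply_of_ne_of_ne h13.symm (hne _ s3 _ t1)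
  have e2' : swap a1 b1 b3 = b3 :=
    Equiv.swap_apply_of_ne_of_ne (hne _ s1 _ t3).symm k13.symm
  have e3 : swap a2 b2 a3 = a3 := Equiv.swap_apply_of_ne_of_ne h23.symm (hne _ s3 _ t2)
  have e3' : swap a2 b2 b3 = b3 :=
    Equiv.swap_apply_of_ne_of_ne (hne _ s2 _ t3).symm k23.symm
  have e4 : swap a2 b2 a1 = a1 := Equiv.swap_apply_of_ne_of_ne h12 (hne _ s1 _ t2)
  have e4' : swap a2 b2 b1 = b1 := Equiv.swap_apply_of_ne_of_ne (hne _ s2 _ t1).symm k12
  have e5 : swap a3 b3 a1 = a1 := Equiv.swap_apply_of_ne_of_ne h13 (hne _ s1 _ t3)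
  have e5' : swap a3 b3 b1 = b1 := Equiv.swap_apply_of_ne_of_ne (hne _ s3 _ t1).symm k13
  have e6 : swap a3 b3 a2 = a2 := Equiv.swap_apply_of_ne_of_ne h23 (hne _ s2 _ t3)
  have e6' : swap a3 b3 b2 = b2 := Equiv.swap_apply_of_ne_of_ne (hne _ s3 _ t2).symm k23
  have C12 : Commute (swap a1 b1) (swap a2 b2) := (comm_swap e1 e1').symm
  have C13 : Commute (swap a1 b1) (swap a3 b3) := (comm_swap e2 e2').symm
  have C23 : Commute (swap a2 b2) (swap a3 b3) := (comm_swap e3 e3').symm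
  have w1 : (swap a1 b1 * swap a2 b2 * swap a3 b3) a1 = b1 := by
    rw [Equiv.Perm.mul_apply, Equiv.Perm.mul_apply, e5, e4, Equiv.swap_apply_left]
  have w2 : (swap a1 b1 * swap a2 b2 * swap a3 b3) a2 = b2 := by
    rw [Equiv.Perm.mul_apply, Equiv.Perm.mul_apply, e6, Equiv.swap_apply_left, e1']
  have w3 : (swap a1 b1 * swap a2 b2 * swap a3 b3) a3 = b3 := by
    rw [Equiv.Perm.mul_apply, Equiv.Perm.mul_apply, Equiv.swap_apply_left, e3', e2']
  have v1 : (swap a1 b1 * swap a2 b2 * swap a3 b3) b1 = a1 := by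
    rw [Equiv.Perm.mul_apply, Equiv.Perm.mul_apply, e5', e4', Equiv.swap_apply_right]
  have v2 : (swap a1 b1 * swap a2 b2 * swap a3 b3) b2 = a2 := by
    rw [Equiv.Perm.mul_apply, Equiv.Perm.mul_apply, e6', Equiv.swap_apply_right, e1]
  have v3 : (swap a1 b1 * swap a2 b2 * swap a3 b3) b3 = a3 := by
    rw [Equiv.Perm.mul_apply, Equiv.Perm.mul_apply, Equiv.swap_apply_right, e3, e2]
  refine ⟨swap a1 b1 * swap a2 b2 * swap a3 b3, ?_, ?_, ?_, ?_, ?_⟩
  · rw [Equiv.Perm.sign_mul, Equiv.Perm.sign_mul, Equiv.Perm.sign_swap (hne _ s1 _ t1),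
      Equiv.Perm.sign_swap (hne _ s2 _ t2), Equiv.Perm.sign_swap (hne _ s3 _ t3)]
    rfl
  · rw [← pow_two, (C13.mul_left C23).mul_pow, C12.mul_pow, pow_two, pow_two, pow_two,
      Equiv.swap_mul_self, Equiv.swap_mul_self, Equiv.swap_mul_self]
    simp
  · set w := swap a1 b1 * swap a2 b2 * swap a3 b3 with hw
    rw [hcs, hds]
    calc w * (swap a1 a2 * swap a2 a3) * w⁻¹
        = (w * swap a1 a2 * w⁻¹) * (w * swap a2 a3 * w⁻¹) := by group
      _ = swap b1 b2 * swap b2 b3 := by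
        rw [← Equiv.swap_apply_apply, ← Equiv.swap_apply_apply, w1, w2, w3]
  · set w := swap a1 b1 * swap a2 b2 * swap a3 b3 with hw
    rw [hcs, hds]
    calc w * (swap b1 b2 * swap b2 b3) * w⁻¹
        = (w * swap b1 b2 * w⁻¹) * (w * swap b2 b3 * w⁻¹) := by group
      _ = swap a1 a2 * swap a2 a3 := by
        rw [← Equiv.swap_apply_apply, ← Equiv.swap_apply_apply, v1, v2, v3]
  · intro x hx hx'
    exact (((comm_swap (fix hx s1) (fix hx' t1)).mul_left
      (comm_swap (fix hx s2) (fix hx' t2))).mul_left (comm_swap (fix hx s3) (fix hx' t3))).eq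

/-- SWY. -/
theorem pf_swy : T_SWY := by
  intro Ω _ _ c hc
  obtain ⟨a1, a2, a3, h12, h13, h23, hcs, s1, s2, s3⟩ := pts hc
  refine ⟨swap a2 a3, Equiv.Perm.sign_swap h23, Equiv.swap_mul_self _ _, ?_, ?_⟩
  · rw [hcs, mul_inv_rev, Equiv.swap_inv, Equiv.swap_inv, mul_assoc, mul_assoc,
      Equiv.swap_mul_self, mul_one]
  · intro x hx
    exact (comm_swap (fix hx s2) (fix hx s3)).eq

end Pool.Agent.H65.NSSW
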